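import Mathlib

/-! Basic generation of ultrafilters is inherited under Tukey reduction. -/

set_option autoImplicit false
set_option maxHeartbeats 400000

namespace Pool.Agent.H791Z.BasGen

open Filter Set

/-- `U` is basically generated. -/
def BG (U : Ultrafilter ℕ) : Prop :=
  ∃ 𝓑 : Set (Set ℕ), (∀ X ∈ 𝓑, X ∈ U) ∧ (∀ A : Set ℕ, A ∈ U → ∃ X ∈ 𝓑, X ⊆ A) ∧
    ∀ (X : ℕ → Set ℕ) (Y : Set ℕ), (∀ n, X n ∈ 𝓑) → Y ∈ 𝓑 →
      (∀ m : ℕ, ∀ᶠ n in Filter.atTop, (m ∈ X n ↔ m ∈ Y)) →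
      ∃ φ : ℕ → ℕ, StrictMono φ ∧ (⋂ k, X (φ k)) ∈ U

/-- Every sequence of members has a pseudo-intersection in `V`. -/
def PP (V : Ultrafilter ℕ) : Prop :=
  ∀ A : ℕ → Set ℕ, (∀ n, A n ∈ V) → ∃ B ∈ V, ∀ n, (B \ A n).Finite

theorem agree {X : ℕ → Set ℕ} {Y : Set ℕ}
    (h : ∀ m : ℕ, ∀ᶠ n in Filter.atTop, (m ∈ X n ↔ m ∈ Y)) (k : ℕ) :
    ∃ N, ∀ n, N ≤ n → ∀ m ≤ k, (m ∈ X n ↔ m ∈ Y) := by
  have h1 : ∀ᶠ n in Filter.atTop, ∀ m ∈ Set.Iic k, (m ∈ X n ↔ m ∈ Y) :=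
    (Filter.eventually_all_finite (Set.finite_Iic k)).2 fun m _ => h m
  obtain ⟨N, hN⟩ := Filter.eventually_atTop.1 h1
  exact ⟨N, fun n hn m hm => hN n hn m hm⟩

theorem bg_of_pp {V : Ultrafilter ℕ} (hV : PP V) : BG V := by
  refine ⟨{X | X ∈ V}, fun _ h => h, fun A hA => ⟨A, hA, subset_rfl⟩, fun X Y hX hY hc => ?_⟩
  obtain ⟨B, hB, hfin⟩ := hV X hX
  have step : ∀ p : ℕ × ℕ, ∃ q : ℕ × ℕ, p.1 < q.1 ∧ p.2 ≤ q.2 ∧
      (∀ m ≤ p.2, (m ∈ X q.1 ↔ m ∈ Y)) ∧ ∀ m ∈ B \ X q.1, m ≤ q.2 := by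
    intro p
    obtain ⟨N, hN⟩ := agree hc p.2
    obtain ⟨b, hb⟩ := (hfin (max N (p.1 + 1))).bddAbove
    refine ⟨(max N (p.1 + 1), max b p.2), ?_, le_max_right _ _, hN _ (le_max_left _ _),
      fun m hm => (hb hm).trans (le_max_left _ _)⟩
    exact lt_of_lt_of_le (Nat.lt_succ_self _) (le_max_right _ _)
  choose nx hnx using step
  let p : ℕ → ℕ × ℕ := fun k => nx^[k] (0, 0)
  have hp : ∀ k, p (k + 1) = nx (p k) := fun k => Function.iterate_succ_apply' nx k _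
  have hmono : StrictMono fun k => (p k).1 :=
    strictMono_nat_of_lt_succ fun k => by rw [hp]; exact (hnx _).1
  have hmono2 : Monotone fun k => (p k).2 :=
    monotone_nat_of_le_succ fun k => by rw [hp]; exact (hnx _).2.1
  have hloc : ∀ k, ∀ m ∈ B ∩ Y, m ∉ X (p (k + 1)).1 → (p k).2 < m ∧ m ≤ (p (k + 1)).2 := by
    intro k m hm hm'
    rw [hp] at hm' ⊢
    refine ⟨?_, (hnx _).2.2.2 m ⟨hm.1, hm'⟩⟩
    by_contra h
    exact hm' (((hnx _).2.2.1 m (not_lt.1 h)).2 hm.2)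
  have hBY : B ∩ Y ∈ V := Filter.inter_mem hB hY
  by_cases hE : (⋂ k, X (p (2 * k + 1)).1) ∈ V
  · exact ⟨fun k => (p (2 * k + 1)).1, fun a b hab => hmono (by omega), hE⟩
  · refine ⟨fun k => (p (2 * k + 1 + 1)).1, fun a b hab => hmono (by omega), ?_⟩
    refine Filter.mem_of_superset (Filter.inter_mem hBY (Ultrafilter.compl_mem_iff_notMem.2 hE)) ?_
    rintro m ⟨hm, hm'⟩
    rw [Set.mem_compl_iff, Set.mem_iInter] at hm'
    push Not at hm'
    obtain ⟨a, ha⟩ := hm'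
    refine Set.mem_iInter.2 fun b => ?_
    by_contra hb
    have h1 := hloc _ m hm ha
    have h2 := hloc _ m hm hb
    rcases le_or_gt a b with h | h
    · have : (p (2 * a + 1)).2 ≤ (p (2 * b + 1)).2 := hmono2 (by omega)
      omega
    · have : (p (2 * b + 1 + 1)).2 ≤ (p (2 * a)).2 := hmono2 (by omega)
      omega

theorem exists_col {V : Ultrafilter ℕ} (hV : ¬ PP V) : ∃ col : ℕ → ℕ,
    (∀ j, {x | col x ≠ j} ∈ V) ∧ ∀ B ∈ V, ∃ j, (B ∩ {x | col x = j}).Infinite := by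
  classical
  unfold PP at hV
  push Not at hV
  obtain ⟨A, hA, hno⟩ := hV
  let col : ℕ → ℕ := fun x => if h : ∃ n, x ∉ A n then Nat.find h + 1 else 0
  have hcol : ∀ x n, x ∉ A n → col x ≤ n + 1 := by
    intro x n hx
    have h : ∃ n, x ∉ A n := ⟨n, hx⟩
    have e : col x = Nat.find h + 1 := dif_pos h
    have := Nat.find_min' h hx
    omega
  refine ⟨col, fun j => ?_, fun B hB => ?_⟩
  · rcases j with _ | j
    · have h1 : (⋂ n, A n) ∉ V := by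
        intro h
        obtain ⟨n, hn⟩ := hno _ h
        rw [Set.diff_eq_empty.2 (Set.iInter_subset A n)] at hn
        exact hn Set.finite_empty
      refine Filter.mem_of_superset (Ultrafilter.compl_mem_iff_notMem.2 h1) fun x hx => ?_
      rw [Set.mem_compl_iff, Set.mem_iInter] at hx
      push Not at hx
      have e : col x = Nat.find hx + 1 := dif_pos hx
      change col x ≠ 0
      omega
    · refine Filter.mem_of_superset (hA j) fun x hx => ?_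
      change col x ≠ j + 1
      by_cases h : ∃ n, x ∉ A n
      · have e : col x = Nat.find h + 1 := dif_pos h
        intro h1
        have h2 : Nat.find h = j := by omega
        exact Nat.find_spec h (h2 ▸ hx)
      · have e : col x = 0 := dif_neg h
        omega
  · obtain ⟨n, hn⟩ := hno B hB
    by_contra hcon
    push Not at hcon
    refine hn (((Set.finite_Iic (n + 1)).biUnion fun j _ => hcon j).subset fun x hx => ?_)
    exact Set.mem_biUnion (hcol x n hx.2) ⟨hx.1, rfl⟩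

/-- `s` enumerates the coding part of `Y`. -/
structure Code (col : ℕ → ℕ) (Y : Set ℕ) (s : ℕ → ℕ) : Prop where
  mono : StrictMono s
  mem : ∀ i, s i ∈ Y
  low : ∀ y ∈ Y, y ≤ s 1 → y = s 0 ∨ y = s 1
  two : ∀ y ∈ Y, (col y = col (s 0) ∨ col y = col (s 1)) → ∃ i, s i = y
  cols : ∀ i, col (s i) = col (s 0) ∨ col (s i) = col (s 1)

theorem Code.eq_of_agree {col : ℕ → ℕ} {Y Y' : Set ℕ} {s s' : ℕ → ℕ} (h : Code col Y s)
    (h' : Code col Y' s') (k : ℕ) (hk : 1 ≤ k) (ha : ∀ m ≤ s k, (m ∈ Y' ↔ m ∈ Y)) :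
    ∀ i ≤ k, s' i = s i := by
  have h01 : s 0 < s 1 := h.mono (by omega)
  have h01' : s' 0 < s' 1 := h'.mono (by omega)
  have h1k : s 1 ≤ s k := h.mono.monotone hk
  have a0 := h'.low _ ((ha (s 0) (by omega)).2 (h.mem 0))
  have a1 := h'.low _ ((ha (s 1) h1k).2 (h.mem 1))
  have b : s' 1 ≤ s 1 := by omega
  have b0 := h.low _ ((ha (s' 0) (by omega)).1 (h'.mem 0)) (by omega)
  have b1 := h.low _ ((ha (s' 1) (by omega)).1 (h'.mem 1)) b
  have e0 : s' 0 = s 0 := by omega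
  have e1 : s' 1 = s 1 := by omega
  intro i
  induction i with
  | zero => intro _; exact e0
  | succ i ih =>
    intro hi
    have ih' := ih (by omega)
    have h2 : s (i + 1) ≤ s k := h.mono.monotone hi
    obtain ⟨t, ht⟩ := h'.two _ ((ha _ h2).2 (h.mem (i + 1))) (by rw [e0, e1]; exact h.cols _)
    have h3 : s i < s (i + 1) := h.mono (by omega)
    have h4 : i < t := h'.mono.lt_iff_lt.1 (by omega)
    have h5 : s' (i + 1) ≤ s' t := h'.mono.monotone h4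
    obtain ⟨t', ht'⟩ := h.two _ ((ha _ (by omega)).1 (h'.mem (i + 1)))
      (by rw [← e0, ← e1]; exact h'.cols _)
    have h6 : s' i < s' (i + 1) := h'.mono (by omega)
    have h7 : i < t' := h.mono.lt_iff_lt.1 (by omega)
    have h8 : s (i + 1) ≤ s t' := h.mono.monotone h7
    omega

theorem exists_seq (W : ℕ → Set ℕ) (hW : ∀ i, (W i).Infinite) :
    ∃ s : ℕ → ℕ, StrictMono s ∧ ∀ i, s i ∈ W i := by
  have step : ∀ i a, ∃ b ∈ W i, a < b := fun i a => (hW i).exists_gt a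
  choose nx hnx using step
  let s : ℕ → ℕ := fun i => Nat.rec (nx 0 0) (fun i a => nx (i + 1) a) i
  refine ⟨s, strictMono_nat_of_lt_succ fun i => (hnx (i + 1) (s i)).2, fun i => ?_⟩
  cases i with
  | zero => exact (hnx 0 0).1
  | succ i => exact (hnx (i + 1) (s i)).1

theorem exists_code {col : ℕ → ℕ} {B : Set ℕ} {j j' : ℕ} (hj : j ≠ j')
    (h1 : (B ∩ {x | col x = j}).Infinite) (h2 : (B ∩ {x | col x = j'}).Infinite) (X : Set ℕ) :
    ∃ Y ⊆ B, ∃ s, Code col Y s ∧ (∀ i, i ∈ X ↔ col (s (i + 2)) = col (s 0)) ∧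
      ∀ y ∈ B, s 1 < y → col y ≠ col (s 0) → col y ≠ col (s 1) → y ∈ Y := by
  classical
  let c : ℕ → ℕ := fun i => if i = 0 then j else if i = 1 then j' else if i - 2 ∈ X then j else j'
  have hc : ∀ i, c i = j ∨ c i = j' := by
    intro i
    simp only [c]
    split_ifs <;> simp
  obtain ⟨s, hs, hm⟩ := exists_seq (fun i => B ∩ {x | col x = c i}) (fun i => by
    rcases hc i with h | h <;> rw [h] <;> assumption)
  have hcs : ∀ i, col (s i) = c i := fun i => (hm i).2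
  have e0 : col (s 0) = j := by rw [hcs]; simp [c]
  have e1 : col (s 1) = j' := by rw [hcs]; simp [c]
  refine ⟨Set.range s ∪ {y | y ∈ B ∧ s 1 < y ∧ col y ≠ j ∧ col y ≠ j'}, ?_, s,
    ⟨hs, fun i => Or.inl ⟨i, rfl⟩, ?_, ?_, ?_⟩, ?_, ?_⟩
  · rintro y (⟨i, rfl⟩ | hy)
    · exact (hm i).1
    · exact hy.1
  · rintro y (⟨i, rfl⟩ | hy) hy1
    · have : i ≤ 1 := hs.le_iff_le.1 hy1
      interval_cases i
      · exact Or.inl rfl
      · exact Or.inr rfl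
    · exact absurd hy.2.1 (not_lt.2 hy1)
  · rintro y (hy | hy) hy1
    · exact hy
    · rw [e0, e1] at hy1
      exact (hy1.elim hy.2.2.1 hy.2.2.2).elim
  · intro i
    rw [e0, e1, hcs]
    exact hc i
  · intro i
    rw [e0, hcs]
    by_cases hi : i ∈ X
    · simp [c, hi]
    · simp [c, hi, hj.symm]
  · intro y hy h3 h4 h5
    rw [e0] at h4
    rw [e1] at h5
    exact Or.inr ⟨hy, h3, h4, h5⟩

theorem bg_of_tukey (U V : Ultrafilter ℕ) (f : Set ℕ → Set ℕ) (hf : ∀ A : Set ℕ, A ∈ U → f A ∈ V)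
    (hcof : ∀ C : Set (Set ℕ), ((∀ X ∈ C, X ∈ U) ∧ ∀ A : Set ℕ, A ∈ U → ∃ X ∈ C, X ⊆ A) →
      ∀ B : Set ℕ, B ∈ V → ∃ X ∈ C, f X ⊆ B) (hU : BG U) : BG V := by
  by_cases hV : PP V
  · exact bg_of_pp hV
  obtain ⟨col, hcol, hinf⟩ := exists_col hV
  obtain ⟨𝓑, hB1, hB2, hB3⟩ := hU
  let F : Set ℕ → Set ℕ := fun A => ⋃ X ∈ {X | X ∈ U ∧ X ⊆ A}, f X
  have hF1 : ∀ A ∈ U, F A ∈ V := fun A hA =>
    Filter.mem_of_superset (hf A hA)
      (Set.subset_biUnion_of_mem (u := f) (s := {X | X ∈ U ∧ X ⊆ A}) ⟨hA, subset_rfl⟩)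
  have hF2 : ∀ A A', A ⊆ A' → F A ⊆ F A' := fun A A' h =>
    Set.biUnion_subset_biUnion_left fun X hX => ⟨hX.1, hX.2.trans h⟩
  have hF3 : ∀ B ∈ V, ∃ A ∈ U, F A ⊆ B := by
    intro B hB
    by_contra hcon
    push Not at hcon
    obtain ⟨X, hX, hX'⟩ := hcof {X | X ∈ U ∧ ¬ f X ⊆ B} ⟨fun X hX => hX.1, fun A hA => by
      by_contra h
      push Not at h
      refine hcon A hA (Set.iUnion₂_subset fun X hX => ?_)
      by_contra h'
      exact h X ⟨hX.1, h'⟩ hX.2⟩ B hB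
    exact hX.2 hX'
  have hbig : ∀ a j j' : ℕ, {y | a < y ∧ col y ≠ j ∧ col y ≠ j'} ∈ V := by
    intro a j j'
    have h1 : (⋂ x ∈ Set.Iic a, {y | col y ≠ col x}) ∈ V :=
      (Filter.biInter_mem (Set.finite_Iic a)).2 fun x _ => hcol (col x)
    refine Filter.mem_of_superset (Filter.inter_mem h1 (Filter.inter_mem (hcol j) (hcol j'))) ?_
    rintro y ⟨h2, h3, h4⟩
    refine ⟨?_, h3, h4⟩
    by_contra h5
    exact (Set.mem_iInter₂.1 h2 y (not_lt.1 h5)) rfl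
  refine ⟨{Y | ∃ X ∈ 𝓑, ∃ s, Code col Y s ∧ (∀ i, i ∈ X ↔ col (s (i + 2)) = col (s 0)) ∧
    ∀ y ∈ F X, s 1 < y → col y ≠ col (s 0) → col y ≠ col (s 1) → y ∈ Y}, ?_, ?_, ?_⟩
  · rintro Y ⟨X, hX, s, -, -, h⟩
    refine Filter.mem_of_superset
      (Filter.inter_mem (hF1 X (hB1 X hX)) (hbig (s 1) (col (s 0)) (col (s 1)))) ?_
    rintro y ⟨h1, h2, h3, h4⟩
    exact h y h1 h2 h3 h4
  · intro B hB
    obtain ⟨A, hA, hAB⟩ := hF3 B hB
    obtain ⟨X, hX, hXA⟩ := hB2 A hA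
    have hFX := hF1 X (hB1 X hX)
    obtain ⟨j, hj⟩ := hinf _ hFX
    obtain ⟨j', hj'⟩ := hinf _ (Filter.inter_mem hFX (hcol j))
    have hne : j ≠ j' := by
      rintro rfl
      obtain ⟨y, ⟨-, h1⟩, h2⟩ := hj'.nonempty
      exact h1 h2
    obtain ⟨Y, hY, s, h1, h2, h3⟩ := exists_code hne hj
      (hj'.mono fun y hy => ⟨hy.1.1, hy.2⟩) X
    exact ⟨Y, ⟨X, hX, s, h1, h2, h3⟩, hY.trans ((hF2 _ _ hXA).trans hAB)⟩
  · rintro Yn Y hYn ⟨X, hX, s, hs, hdec, -⟩ hc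
    choose Xn hXn sn hsn hdecn hsub using hYn
    have hconv : ∀ m : ℕ, ∀ᶠ n in Filter.atTop, (m ∈ Xn n ↔ m ∈ X) := by
      intro m
      obtain ⟨N, hN⟩ := agree hc (s (m + 2))
      filter_upwards [Filter.eventually_ge_atTop N] with n hn
      have h1 := hs.eq_of_agree (hsn n) (m + 2) (by omega) (hN n hn)
      rw [hdecn, hdec, h1 (m + 2) le_rfl, h1 0 (by omega)]
    obtain ⟨φ, hφ, hZ⟩ := hB3 Xn X hXn hX hconv
    obtain ⟨N, hN⟩ := agree hc (s 1)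
    refine ⟨fun k => φ (k + N), fun a b hab => hφ (by omega), ?_⟩
    refine Filter.mem_of_superset
      (Filter.inter_mem (hF1 _ hZ) (hbig (s 1) (col (s 0)) (col (s 1)))) ?_
    rintro y ⟨h1, h2, h3, h4⟩
    refine Set.mem_iInter.2 fun k => ?_
    have h5 : N ≤ φ (k + N) := (Nat.le_add_left N k).trans (hφ.id_le _)
    have h6 := hs.eq_of_agree (hsn _) 1 le_rfl (hN _ h5)
    refine hsub _ y (hF2 _ _ (Set.iInter_subset _ (k + N)) h1) ?_ ?_ ?_
    · rwa [h6 1 le_rfl]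
    · rwa [h6 0 (by omega)]
    · rwa [h6 1 le_rfl]

end Pool.Agent.H791Z.BasGen
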